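import Pool.Agent.Helper66_ML.Stmts2

/-!
# Squad ML, stage 2, row DVR
-/

noncomputable section

namespace Pool.Agent.PP.ML.H92

open Pool.Agent.Helper51_AWC Pool.Agent.Helper79_WRA Pool.Agent.PP Pool.Agent.Helper98_CC

theorem cj_conj {G : Type} [Group G] (b : G) : Cj {x : G | IsConj b x} := by
  intro g k hk
  have hk' : IsConj b k := hk
  exact hk'.trans (isConj_iff.2 ⟨g, rfl⟩)

theorem card_split {G : Type} [Group G] [Finite G] (R : Subgroup G) (g : G)
    (hR : R ≤ Subgroup.centralizer ({g} : Set G)) :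
    Nat.card R * R.relIndex (Subgroup.centralizer ({g} : Set G)) = cz g := by
  have h := Subgroup.card_mul_index (R.subgroupOf (Subgroup.centralizer ({g} : Set G)))
  rw [Nat.card_congr (Subgroup.subgroupOfEquivOfLe hR).toEquiv] at h
  exact h

theorem dvr (wdvL : WdvLStmt) (wdv3 : Wdv3Stmt) (wdv2 : Wdv2Stmt) : DvrStmt := by
  intro ℓ _ G A _ _ _ R g ρ hp hR hl k hk
  have hcomm : ∀ r ∈ R, r * g = g * r := by
    intro r hr
    exact (Subgroup.mem_centralizer_singleton_iff.1 (hR hr))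
  refine ⟨?_, ?_, ?_⟩
  · intro m bs _
    refine ⟨Nat.card R, _, card_split R g hR, hl, ?_⟩
    refine wdvL ℓ G A R g ρ hp hcomm _ ?_ k hk
    intro K hK
    obtain ⟨b, _, rfl⟩ := List.mem_map.1 hK
    exact cj_conj b
  · intro h3 bs hbs
    obtain ⟨b, b', rfl⟩ := List.length_eq_two.1 hbs
    refine ⟨Nat.card R, _, card_split R g hR, hl, ?_⟩
    exact wdv3 ℓ G A R g ρ hp hcomm _ _ (cj_conj b) (cj_conj b') k hk h3
  · intro h2 bs hbs
    obtain ⟨b, rfl⟩ := List.length_eq_one_iff.1 hbs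
    refine ⟨Nat.card R, _, card_split R g hR, hl, ?_⟩
    exact wdv2 ℓ G A R g ρ hp hcomm _ (cj_conj b) k hk h2

end Pool.Agent.PP.ML.H92
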